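import Pool.Agent.Helper30.DL.GoalsD

/-! MP_b4564f_an, packet SIX of helper30. -/

set_option autoImplicit false

namespace Pool.Agent.Helper91.DL

open Pool.Agent.Helper30.DL

/-- The conclusion at a point. -/
def Concl (md : ℕ) (Cr : Cf ℝ) (Kr : Gs ℝ) (a y ζ : ℝ) : Prop :=
  (md = 0 → a ^ 4 ≤ 10000000000 * Phi Cr 0 a (a - ζ) y ζ (Kr.ev a))
      ∧ (md ≠ 0 → a ^ 4 ≤ 10000000000 * Phi Cr 1 a (a - ζ) y ζ (Kr.ev a))

theorem concl_of_pos (md ch : ℕ) (Cr : Cf ℝ) (Kr : Gs ℝ) (a y ζ X Y : ℝ)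
    (h : PosAt md ch Cr Kr X Y ζ) (ha : chR ch X * chA ch X Y = a)
    (hy : chR ch X * chY ch Y = y) (h4 : a ^ 4 ≤ chR ch X ^ 4) (h2 : a ^ 4 ≤ chR ch X ^ 2) :
    Concl md Cr Kr a y ζ := by
  unfold PosAt at h
  rw [ha, hy] at h
  exact ⟨fun e => h4.trans (h.1 e), fun e => h2.trans (h.2 e)⟩

theorem six (hT : TreeStmt) : SixStmt := by
  intro md C K R D x0 h6 hom0 hom1 hbl hbh hm hM z Cr Kr hz hC hK hmd a y ζ ha1 ha2 hy1 hy2 hz1 hz2
  obtain ⟨h0, hA, ha, hB, hb, hP, hN⟩ := h6
  have hmR : (D.m : ℝ) ≤ 10000000000 := by exact_mod_cast hm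
  have hMR : (D.M : ℝ) ≤ 10000000000 := by exact_mod_cast hM
  have ale : a ≤ 1 := by linarith
  have age : -1 ≤ a := by linarith
  have om0 : (0 : ℝ) ≤ R.om := by exact_mod_cast hom0
  have om1 : (R.om : ℝ) ≤ 40000000000 := by exact_mod_cast hom1
  obtain ⟨bl1, bl2⟩ := abs_le.mp hbl
  obtain ⟨bh1, bh2⟩ := abs_le.mp hbh
  have bl1' : (-40000000000 : ℝ) ≤ R.bl := by exact_mod_cast bl1
  have bl2' : (R.bl : ℝ) ≤ 40000000000 := by exact_mod_cast bl2
  have bh1' : (-40000000000 : ℝ) ≤ R.bh := by exact_mod_cast bh1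
  have bh2' : (R.bh : ℝ) ≤ 40000000000 := by exact_mod_cast bh2
  have q1 : -(40000000000 : ℝ) ≤ (R.om : ℝ) * a := by nlinarith
  have q2 : (R.om : ℝ) * a ≤ 40000000000 := by nlinarith
  have z1 : (((-100000000000 : ℤ)) : ℝ) ≤ 10000000000 * ζ := by push_cast; linarith
  have z2 : 10000000000 * ζ ≤ (((100000000000 : ℤ)) : ℝ) := by push_cast; linarith
  have x0a : (0 : ℝ) ≤ x0 := by exact_mod_cast h0.1
  have a4 : a ^ 4 ≤ a ^ 2 := by
    have : a ^ 2 ≤ 1 := by nlinarith
    nlinarith [sq_nonneg a]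
  have a1 : a ^ 4 ≤ 1 := by
    have : a ^ 2 ≤ 1 := by nlinarith
    linarith
  -- the main use of the tree packet
  have key : ∀ (ch : ℕ) (X0 X1 Y0 Y1 : ℤ) (X Y : ℝ), ch ≤ 2 → RunOK md ch C K R x0 X0 X1 Y0 Y1 →
      (X0 : ℝ) ≤ 10000000000 * X → 10000000000 * X ≤ X1 →
      (Y0 : ℝ) ≤ 10000000000 * Y → 10000000000 * Y ≤ Y1 →
      chR ch X * chA ch X Y = a → chR ch X * chY ch Y = y →
      a ^ 4 ≤ chR ch X ^ 4 → a ^ 4 ≤ chR ch X ^ 2 →
      (ch = 1 → 10000000000 * |X * Y| ≤ x0) → Concl md Cr Kr a y ζ := by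
    intro ch X0 X1 Y0 Y1 X Y hch hrun e1 e2 e3 e4 e5 e6 e7 e8 e9
    obtain ⟨tr, htr⟩ := hrun
    refine concl_of_pos md ch Cr Kr a y ζ X Y ?_ e5 e6 e7 e8
    exact hT md ch C K R x0 tr X0 X1 Y0 Y1 _ _ hch hom0 h0.1 htr z Cr Kr hz hC hK hmd X Y ζ
      e1 e2 e3 e4 z1 z2 (by rw [e5]; exact hz1) (by rw [e5]; exact hz2) e9
  show Concl md Cr Kr a y ζ
  by_cases hax : 10000000000 * |a| ≤ x0
  · obtain ⟨hx1, hx2⟩ := abs_le.mp (show |10000000000 * a| ≤ x0 by
      rw [abs_mul, abs_of_pos (by norm_num : (0 : ℝ) < 10000000000)]; exact hax)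
    by_cases hya : |y| ≤ |a|
    · rcases lt_trichotomy a 0 with hneg | hzero | hpos
      · have hne : a ≠ 0 := hneg.ne
        have hr : |y / a| ≤ 1 := by
          rw [abs_div]; exact div_le_one_of_le₀ hya (abs_nonneg a)
        obtain ⟨r1, r2⟩ := abs_le.mp hr
        refine key 0 (-x0) 0 (-10000000000) 10000000000 a (y / a) (by norm_num) ha ?_ ?_ ?_ ?_ ?_ ?_
          ?_ ?_ ?_
        · push_cast; linarith
        · push_cast; linarith
        · push_cast; linarith
        · push_cast; linarith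
        · simp [chR, chA]
        · simp only [chR, chY]; field_simp
        · simp [chR]
        · simpa [chR] using a4
        · intro h; omega
      · subst hzero
        have hy0 : y = 0 := by simpa using hya
        subst hy0
        refine key 0 0 x0 (-10000000000) 10000000000 0 0 (by norm_num) hA ?_ ?_ ?_ ?_ ?_ ?_
          ?_ ?_ ?_
        · simp
        · simpa using x0a
        · push_cast; linarith
        · push_cast; linarith
        · simp [chR]
        · simp [chR]
        · simp [chR]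
        · simp [chR]
        · intro h; omega
      · have hne : a ≠ 0 := hpos.ne'
        have hr : |y / a| ≤ 1 := by
          rw [abs_div]; exact div_le_one_of_le₀ hya (abs_nonneg a)
        obtain ⟨r1, r2⟩ := abs_le.mp hr
        refine key 0 0 x0 (-10000000000) 10000000000 a (y / a) (by norm_num) hA ?_ ?_ ?_ ?_ ?_ ?_
          ?_ ?_ ?_
        · push_cast; linarith
        · push_cast; linarith
        · push_cast; linarith
        · push_cast; linarith
        · simp [chR, chA]
        · simp only [chR, chY]; field_simp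
        · simp [chR]
        · simpa [chR] using a4
        · intro h; omega
    · have hya' : |a| ≤ |y| := (not_le.mp hya).le
      have hy0 : y ≠ 0 := by
        intro h
        rw [h, abs_zero] at hya
        exact hya (abs_nonneg a)
      have hr : |a / y| ≤ 1 := by
        rw [abs_div]; exact div_le_one_of_le₀ hya' (abs_nonneg y)
      obtain ⟨r1, r2⟩ := abs_le.mp hr
      have s2 : a ^ 2 ≤ y ^ 2 := sq_le_sq.mpr hya'
      have s4 : a ^ 4 ≤ y ^ 4 := by nlinarith [sq_nonneg a, sq_nonneg y]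
      have e5 : y * (a / y) = a := by field_simp
      have key1 : ∀ (X0 X1 : ℤ), RunOK md 1 C K R x0 X0 X1 (-10000000000) 10000000000 →
          (X0 : ℝ) ≤ 10000000000 * y → 10000000000 * y ≤ X1 → Concl md Cr Kr a y ζ := by
        intro X0 X1 hrun g1 g2
        refine key 1 X0 X1 (-10000000000) 10000000000 y (a / y) (by norm_num) hrun g1 g2 ?_ ?_ ?_ ?_
          ?_ ?_ ?_
        · push_cast; linarith
        · push_cast; linarith
        · simpa only [chR, chA] using e5
        · simp [chR, chY]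
        · simpa only [chR] using s4
        · simpa only [chR] using a4.trans s2
        · intro _
          rw [e5]; exact hax
      rcases lt_or_gt_of_ne hy0 with hneg | hpos
      · exact key1 D.ylo 0 hb hy1 (by push_cast; linarith)
      · exact key1 0 D.yhi hB (by push_cast; linarith) hy2
  · have hax' : (x0 : ℝ) < 10000000000 * |a| := not_le.mp hax
    rcases le_total 0 a with hpos | hneg
    · rw [abs_of_nonneg hpos] at hax'
      refine key 2 x0 D.M D.ylo D.yhi a y le_rfl hP hax'.le ha2 hy1 hy2 ?_ ?_ ?_ ?_ ?_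
      · simp [chR, chA]
      · simp [chR, chY]
      · simpa [chR] using a1
      · simpa [chR] using a1
      · intro h; omega
    · rw [abs_of_nonpos hneg] at hax'
      refine key 2 (-D.m) (-x0) D.ylo D.yhi a y le_rfl hN ?_ ?_ hy1 hy2 ?_ ?_ ?_ ?_ ?_
      · push_cast; linarith
      · push_cast; linarith
      · simp [chR, chA]
      · simp [chR, chY]
      · simpa [chR] using a1
      · simpa [chR] using a1
      · intro h; omega

end Pool.Agent.Helper91.DL
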